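import Mathlib
import Pool.Agent.CF24.Defs
import Pool.Agent.CF24.Lower

namespace Pool.Agent.Results.MP_2107e4_co.EvenLower

open Pool.Agent.CF24

/-- For every even `k ≥ 2` the asymptotic density of the largest comma-free sets of words of
length `k` is at least `1 / (k + 1)`. -/
theorem result (k : ℕ) (hk : Even k) (hk2 : 2 ≤ k) :
    (1 : ℝ) / (k + 1) ≤
      Filter.liminf (fun n : ℕ => (W k n : ℝ) / (n : ℝ) ^ k) Filter.atTop := by
  obtain ⟨h, rfl⟩ := (even_iff_two_dvd.1 hk)
  have := lower_half h (by omega)
  push_cast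
  exact this

end Pool.Agent.Results.MP_2107e4_co.EvenLower
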