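import Mathlib
import Pool.Agent.CF24.Defs
import Pool.Agent.CF24.Upper

namespace Pool.Agent.Results.MP_2107e4_co.EvenUpper

open Pool.Agent.CF24

/-- For every even word length `k = 2 h` and every alphabet size `n`, the largest comma-free
set has at most `(1 - c) n ^ k / k` words, with `c = 3 ^ (-h (2 ^ h - 1)) > 0` independent
of `n`. -/
theorem result (h : ℕ) (hh : 1 ≤ h) (n : ℕ) :
    (W (2 * h) n : ℝ) ≤
      (1 - 1 / 3 ^ (h * (2 ^ h - 1))) * (n : ℝ) ^ (2 * h) / (2 * h) := by
  have h1 := upper_W (n := n) hh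
  have h2 : (0 : ℝ) < 2 * h := by positivity
  rw [le_div_iff₀ h2]
  linarith

end Pool.Agent.Results.MP_2107e4_co.EvenUpper
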