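import Mathlib
import Pool.Agent.CF24.Defs
import Pool.Agent.H68.CF4

namespace Pool.Agent.Results.MP_2107e4_co.FourLower

open Pool.Agent.CF24 Pool.Agent.H68.CF4

/-- The asymptotic density `α_4` of the largest comma-free sets of words of length `4` is at
least `0.2248081`. -/
theorem result :
    (2248081 : ℝ) / 10000000 ≤
      Filter.liminf (fun n : ℕ => (W 4 n : ℝ) / (n : ℝ) ^ 4) Filter.atTop := by
  have h := liminf_ge (k := 4) (N := 150) (by norm_num) ty150 D4 commaFree_D4
  rw [sum150] at h
  refine le_trans ?_ h
  norm_num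

end Pool.Agent.Results.MP_2107e4_co.FourLower
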