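import Mathlib
import Pool.Agent.CF24.Defs
import Pool.Agent.CF81.Fin

namespace Pool.Agent.Results.MP_2107e4_co.FourUpper

open Pool.Agent.CF24 Pool.Agent.CF81

/-- For every alphabet size `n` a comma-free set of words of length `4` has at most
`(199 / 816) n ^ 4 + 5 n ^ 3` members. -/
theorem result (n : ℕ) : (W 4 n : ℝ) ≤ 199 / 816 * (n : ℝ) ^ 4 + 5 * (n : ℝ) ^ 3 :=
  W_le_of_bd (bd_of Dat.no_sys) n

end Pool.Agent.Results.MP_2107e4_co.FourUpper
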